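import Pool.Agent.H97.HV.Targets
import Pool.Agent.H14.PRK.CI

/-!
# FOD. The number of the ordinal definable subsets (MP_e37c09_lc)
-/

open Ordinal Cardinal Order Set
open scoped ZFSet

universe u

namespace Pool.Agent.H19.HV

open _root_.HD HD.PRK HD.HV

/-- a club set without a bounded part -/
theorem clb_Ioi {κ b : Ordinal.{u}} {C : Set Ordinal.{u}} (hC : Clb κ C) (hb : b < κ) :
    Clb κ (C ∩ Ioi b) where
  unb a ha := by
    obtain ⟨c, hc, h1, h2⟩ := hC.unb (max a b) (max_lt ha hb)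
    exact ⟨c, hc, (le_max_left _ _).trans_lt h1, h2, (le_max_right _ _).trans_lt h1⟩
  cls x hx hx0 h := by
    refine ⟨hC.cls x hx hx0 fun y hy => ?_, ?_⟩
    · obtain ⟨z, hz, h1, h2⟩ := h y hy
      exact ⟨z, hz, h1, h2.1⟩
    · obtain ⟨z, hz, -, h2⟩ := h 0 hx0
      exact lt_trans h2.2 hz

/-- the set of the least codes is definable -/
theorem ds_Lst {en : Ordinal.{u} → ZFSet.{u}} (hen : EN en) {Q : ZFSet.{u}} (hQ : OD Q) :
    DS (Lst en Q) := by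
  refine ⟨fun v => ∃ y, ((v 0).IsOrdinal ∧ y = en (v 0).rank) ∧ (∀ s, s ∈ y → s ∈ Q) ∧
    ∀ c, c ∈ v 0 → ∀ y', (c.IsOrdinal ∧ y' = en c.rank) → ¬ y' = y, ?_, fun w => ?_⟩
  · refine DZ.ex (R := fun y v => ((v 0).IsOrdinal ∧ y = en (v 0).rank) ∧
      (∀ s, s ∈ y → s ∈ Q) ∧ ∀ c, c ∈ v 0 → ∀ y', (c.IsOrdinal ∧ y' = en c.rank) → ¬ y' = y)
      (((hen.dz).ren fun n => if n = 0 then 1 else 0).and (DZ.and ?_ ?_))
    · refine DZ.all (R := fun s v => s ∈ v 0 → s ∈ Q) ((DZ.mem 0 1).imp ?_)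
      exact DZ.od (R := fun r v => v 0 ∈ r) hQ (DZ.mem 1 0)
    · refine DZ.all (R := fun c v => c ∈ v 1 → ∀ y', (c.IsOrdinal ∧ y' = en c.rank) →
        ¬ y' = v 0) ((DZ.mem 0 2).imp ?_)
      refine DZ.all (R := fun y' v => ((v 0).IsOrdinal ∧ y' = en (v 0).rank) → ¬ y' = v 1)
        (DZ.imp ?_ (DZ.eq 0 2).not)
      exact (hen.dz).ren fun n => if n = 0 then 1 else 0
  · constructor
    · intro h
      have e1 : (ov w 0).rank = w 0 := rank_toZFSet _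
      refine ⟨en (w 0), ⟨ZFSet.isOrdinal_toZFSet _, by rw [e1]⟩, fun s hs => h.1 hs, ?_⟩
      rintro c hc y' ⟨-, rfl⟩ he
      obtain ⟨a, ha, rfl⟩ := mem_toZFSet_iff.1 hc
      rw [rank_toZFSet] at he
      exact h.2 a ha he
    · rintro ⟨y, ⟨-, rfl⟩, h1, h2⟩
      have e1 : (ov w 0).rank = w 0 := rank_toZFSet _
      rw [e1] at h1 h2
      refine ⟨fun s hs => h1 s hs, fun c hc => ?_⟩
      refine h2 c.toZFSet (toZFSet_mem_toZFSet_iff.2 hc) (en c)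
        ⟨ZFSet.isOrdinal_toZFSet _, by rw [rank_toZFSet]⟩

/-- the set of all `i` such that `s` is in the `i`-th ordinal definable subset of `Q` -/
theorem odp_sec {en : Ordinal.{u} → ZFSet.{u}} (hen : EN en) {Q : ZFSet.{u}} (hQ : OD Q)
    (κ : Ordinal.{u}) (s : ZFSet.{u}) : NF.ODp (ZFSet.pair s s)
      (os κ {i | ∃ z, nth (Lst en Q) i z ∧ s ∈ en z}) := by
  have hn : DO fun w => nth (Lst en Q) (w 0) (w 1) :=
    HD.All.db (fun a _ => a ∈ Lst en Q) (ds_Lst hen hQ)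
  obtain ⟨P, hP, hPn⟩ := hn
  have hPn' : ∀ i z : Ordinal.{u}, nth (Lst en Q) i z ↔
      P (fun n => if n = 0 then i.toZFSet else z.toZFSet) := by
    intro i z
    have h1 := hPn (fun n => if n = 0 then i else z)
    have h2 : ov (fun n => if n = 0 then i else z) =
        fun n => if n = 0 then i.toZFSet else z.toZFSet := by
      funext n
      exact apply_ite Ordinal.toZFSet (n = 0) i z
    rw [h2] at h1
    exact h1
  have hkey : ∀ t, t ∈ os κ {i | ∃ z, nth (Lst en Q) i z ∧ s ∈ en z} ↔ t ∈ κ.toZFSet ∧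
      ∃ z y, (z.IsOrdinal ∧ y = en z.rank) ∧ P (fun n => if n = 0 then t else z) ∧ s ∈ y := by
    intro t
    rw [mem_os]
    constructor
    · rintro ⟨i, hi, ⟨z, hz, hs⟩, rfl⟩
      exact ⟨toZFSet_mem_toZFSet_iff.2 hi, z.toZFSet, en z,
        ⟨ZFSet.isOrdinal_toZFSet _, by rw [rank_toZFSet]⟩, (hPn' i z).1 hz, hs⟩
    · rintro ⟨ht, z, y, ⟨hz, rfl⟩, h1, hs⟩
      obtain ⟨i, hi, rfl⟩ := mem_toZFSet_iff.1 ht
      obtain ⟨a, rfl⟩ := ord_of hz
      rw [rank_toZFSet] at hs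
      exact ⟨i, hi, ⟨a, (hPn' i a).2 h1, hs⟩, rfl⟩
  refine Pool.Agent.H45.NF.ODp.of_dz (Q := fun v => ∃ s, v 1 = ZFSet.pair s s ∧
    ∃ k, k = κ.toZFSet ∧ ∀ t, (t ∈ v 0 ↔ t ∈ k ∧ ∃ z y, (z.IsOrdinal ∧ y = en z.rank) ∧
      P (fun n => if n = 0 then t else z) ∧ s ∈ y)) ?_ fun y => ?_
  · refine DZ.ex (R := fun s v => v 1 = ZFSet.pair s s ∧
      ∃ k, k = κ.toZFSet ∧ ∀ t, (t ∈ v 0 ↔ t ∈ k ∧ ∃ z y, (z.IsOrdinal ∧ y = en z.rank) ∧
      P (fun n => if n = 0 then t else z) ∧ s ∈ y)) ((loc_pair 2 0 0).dz.and ?_)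
    refine DZ.ex (R := fun k v => k = κ.toZFSet ∧
      ∀ t, (t ∈ v 1 ↔ t ∈ k ∧ ∃ z y, (z.IsOrdinal ∧ y = en z.rank) ∧
      P (fun n => if n = 0 then t else z) ∧ v 0 ∈ y)) ((DZ.eqOrd κ 0).and ?_)
    refine DZ.all (R := fun t v => (t ∈ v 2 ↔ t ∈ v 0 ∧ ∃ z y, (z.IsOrdinal ∧
      y = en z.rank) ∧ P (fun n => if n = 0 then t else z) ∧ v 1 ∈ y))
      ((DZ.mem 0 3).iff ((DZ.mem 0 1).and ?_))
    refine DZ.ex (R := fun z v => ∃ y, (z.IsOrdinal ∧ y = en z.rank) ∧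
      P (fun n => if n = 0 then v 0 else z) ∧ v 2 ∈ y) ?_
    refine DZ.ex (R := fun y v => ((v 0).IsOrdinal ∧ y = en (v 0).rank) ∧
      P (fun n => if n = 0 then v 1 else v 0) ∧ v 3 ∈ y) (DZ.and ?_ (DZ.and ?_ (DZ.mem 4 0)))
    · exact (hen.dz).ren fun n => if n = 0 then 1 else 0
    · refine (hP.ren fun n => if n = 0 then 2 else 1).congr fun v => ?_
      have : (fun n => if n = 0 then v 2 else v 1) =
          fun n => v (if n = 0 then 2 else 1) := by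
        funext n
        split_ifs <;> rfl
      show P (fun n => if n = 0 then v 2 else v 1) ↔ _
      rw [this]
  · constructor
    · rintro ⟨s', hs', k, rfl, h⟩
      have h1 : ZFSet.pair s s = ZFSet.pair s' s' := hs'
      obtain ⟨rfl, -⟩ := ZFSet.pair_injective h1
      ext t
      rw [hkey t]
      exact h t
    · rintro rfl
      exact ⟨s, rfl, κ.toZFSet, rfl, hkey⟩

theorem pf_FOD (h0 : T_PVA.{u}) (h1 : T_DEC.{u}) : T_FOD.{u} := by
  intro en hen M K hK hK0 ⟨c, hc⟩ γ hγ Q hQ hPV ⟨ν, hν, e, he⟩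
  obtain ⟨-, -, h3, -, -⟩ := h0
  obtain ⟨v1, v2, v3, v4⟩ := HD.All.vh (Lst en Q)
  rcases v4 K.ord with h4 | h4
  · exact h4
  exfalso
  have hnu : ν.ord < K.ord := ord_lt_ord.2 hν
  -- the club sets
  have hcl : ∀ i : Ordinal.{u}, ∃ C, Clb K.ord C ∧ (e i ∈ Q →
      (∀ b ∈ C, b < K.ord → b ∈ E en c → Cf M.ord b → ∃ z, nth (Lst en Q) b z ∧ e i ∈ en z) ∨
      (∀ b ∈ C, b < K.ord → b ∈ E en c → Cf M.ord b →
        ¬ ∃ z, nth (Lst en Q) b z ∧ e i ∈ en z)) := by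
    intro i
    by_cases hi : e i ∈ Q
    · have h5 : PV γ (os K.ord {b | ∃ z, nth (Lst en Q) b z ∧ e i ∈ en z}) :=
        h3 γ hγ.lim (e i) (e i) _ (hPV _ hi) (hPV _ hi) (odp_sec hen hQ K.ord (e i))
      have h6 := h1 en hen M K hK hK0 c hc γ hγ _ h5
      rw [not_and_or] at h6
      rcases h6 with h6 | h6
      · unfold Pos at h6
        push Not at h6
        obtain ⟨C, hC, h6⟩ := h6
        refine ⟨C, hC, fun _ => Or.inr fun b hb hbK hbE hbM hz => ?_⟩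
        exact h6 b hbK hb ⟨hbE, ord_mem_os.2 ⟨hbK, hz⟩⟩ hbM
      · unfold Pos at h6
        push Not at h6
        obtain ⟨C, hC, h6⟩ := h6
        refine ⟨C, hC, fun _ => Or.inl fun b hb hbK hbE hbM => ?_⟩
        by_contra hz
        exact h6 b hbK hb ⟨hbE, fun hm => hz (ord_mem_os.1 hm).2⟩ hbM
    · refine ⟨univ, ⟨fun a ha => ?_, fun _ _ _ _ => mem_univ _⟩, fun h => absurd h hi⟩
      exact ⟨succ a, (isSuccLimit_ord hK0.le).succ_lt ha, lt_succ a, mem_univ _⟩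
  choose C hC hCd using hcl
  have hCC := Pool.Agent.H14.PRK.pf_CI K hK hK0 ν.ord hnu C (fun i _ => hC i)
  obtain ⟨b, hb, hbC, hbE, hbM⟩ := hc.pos _ hCC
  obtain ⟨b', hb', hbC', hbE', hbM'⟩ := hc.pos _ (clb_Ioi hCC hb)
  obtain ⟨z, hz⟩ := h4 b hb
  obtain ⟨z', hz'⟩ := h4 b' hb'
  have hzz : z < z' := (v2 b b' z z' hz hz').1 hbC'.2
  have hun : ∀ a y y', nth (Lst en Q) a y → nth (Lst en Q) a y' → y = y' := by
    intro a y y' hy hy'
    rcases lt_trichotomy y y' with h | h | h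
    · exact absurd ((v2 a a y y' hy hy').2 h) (lt_irrefl a)
    · exact h
    · exact absurd ((v2 a a y' y hy' hy).2 h) (lt_irrefl a)
  have heq : en z = en z' := by
    ext s
    constructor
    · intro hs
      have hsQ : s ∈ Q := hz.1.1 hs
      obtain ⟨i, hi, rfl⟩ := he s hsQ
      rcases hCd i hsQ with h | h
      · obtain ⟨y, hy, hy2⟩ := h b' (hbC'.1 i hi) hb' hbE' hbM'
        rw [hun _ _ _ hz' hy]
        exact hy2
      · exact absurd ⟨z, hz, hs⟩ (h b (hbC i hi) hb hbE hbM)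
    · intro hs
      have hsQ : s ∈ Q := hz'.1.1 hs
      obtain ⟨i, hi, rfl⟩ := he s hsQ
      rcases hCd i hsQ with h | h
      · obtain ⟨y, hy, hy2⟩ := h b (hbC i hi) hb hbE hbM
        rw [hun _ _ _ hz hy]
        exact hy2
      · exact absurd ⟨z', hz', hs⟩ (h b' (hbC'.1 i hi) hb' hbE' hbM')
  exact hz'.1.2 z hzz heq

end Pool.Agent.H19.HV
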